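import Pool.Agent.SGK.Stmts

set_option autoImplicit false

namespace Pool.Agent.SGK.H34

open Pool.Agent.SGE Pool.Agent.SGK

lemma usplit {V : Type} (p : V) : ∀ (P P' R R' : List V), P ++ p :: R = P' ++ p :: R' → p ∉ P →
    p ∉ P' → P = P' ∧ R = R' := by
  intro P
  induction P with
  | nil =>
    intro P' R R' h _ h2
    cases P' with
    | nil =>
      simp only [List.nil_append, List.cons.injEq, true_and] at h
      exact ⟨rfl, h⟩
    | cons x P' =>
      simp only [List.nil_append, List.cons_append, List.cons.injEq] at h
      exact absurd (by rw [h.1]; exact List.mem_cons_self) h2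
  | cons x P ih =>
    intro P' R R' h h1 h2
    cases P' with
    | nil =>
      simp only [List.nil_append, List.cons_append, List.cons.injEq] at h
      exact absurd (by rw [h.1]; exact List.mem_cons_self) h1
    | cons y P' =>
      simp only [List.cons_append, List.cons.injEq] at h
      obtain ⟨e1, e2⟩ := ih P' R R' h.2 (fun hm => h1 (List.mem_cons_of_mem _ hm))
        (fun hm => h2 (List.mem_cons_of_mem _ hm))
      exact ⟨by rw [h.1, e1], e2⟩

theorem det (cb : CbStmt) : DetStmt := by
  intro V a b C C' S h
  induction h generalizing C' with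
  | base h =>
    intro h'
    cases h'
    rfl
  | @step P Q mid p q v S hc ha hb hv ih =>
    intro h'
    generalize hS : (v, p :: (mid ++ [q])) :: S = S₀ at h'
    cases h' with
    | base h => simp at hS
    | @step P' Q' mid' p' q' v' S' hc' ha' hb' hv' =>
      simp only [List.cons.injEq, Prod.mk.injEq] at hS
      obtain ⟨⟨e1, e2, e3⟩, e4⟩ := hS
      subst e1 e2 e4
      have e5 := List.append_inj' e3 rfl
      obtain ⟨e6, e7⟩ := e5
      simp only [List.cons.injEq, and_true] at e7
      subst e6 e7
      have hI := ih hc'
      obtain ⟨-, hn, -⟩ := cb hc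
      obtain ⟨-, hn', -⟩ := cb hc'
      have hp : p ∉ P := by
        intro hm
        rw [List.nodup_append] at hn
        exact hn.2.2 p hm p List.mem_cons_self rfl
      have hp' : p ∉ P' := by
        intro hm
        rw [List.nodup_append] at hn'
        exact hn'.2.2 p hm p List.mem_cons_self rfl
      obtain ⟨f1, f2⟩ := usplit p _ _ _ _ hI hp hp'
      have f3 := List.append_cancel_left f2
      simp only [List.cons.injEq, true_and] at f3
      rw [f1, f3]

end Pool.Agent.SGK.H34
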